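import Pool.Agent.H43.PC.Mon

/-!
# The strong motivic monodromy conjecture at points: reduction to lattice polynomials

A *gate* over a field `k ⊂ ℂ` is one of the polynomials `x_a - c` with `c ∈ k`, `x_a - x_b`,
`x_a + x_b - x_c`, `x_a x_b - x_c`. A *lattice system* consists of finitely many variables
`x_1, …, x_n` and gates `p_1, …, p_r`, with different places in the square lattice `ℤ²`, such that
every gate is a neighbour of each of its (different) variables and every variable occurs in at most
three gates. Its polynomials are

`F = x_out + ∑_g y_g p_g(x)`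

for one of the variables `x_out`, that is, cubic polynomials with nearest neighbour interactions:
every monomial of degree at least two is `± y_g x_a`, `y_g x_a x_b` with neighbours `g`, `a` and `g`,
`b`.

Every polynomial `f ∈ k[x_1, …, x_n]` is stably equivalent over `k` to such an `F`: for all large `κ`
there is an isomorphism of polynomial rings over `k` which takes `f + u_1 v_1 + ⋯ + u_κ v_κ` to `F`. If
the coefficients of `f` are in the `ℚ`-vector space spanned by a set `S ∋ 1`, the constants `c` of the
gates can be taken in `S ∪ -S ∪ {0}`; so for `k = ℚ` they are `0, 1, -1`. We deduce that Q1 for all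
pairs `(f, x)`, `f ∈ k[x_1, …, x_n]` nonconstant and `x` a point of `f = 0` over a field `K ⊇ k`, is
equivalent to its case of the lattice polynomials over `k` (for `k = ℚ` with constants `0, 1, -1`) and
of all their points over such fields, and that only the `F` with minimal exponent larger than any
given `N` have to be considered.

Method. The squarefree polynomial of a program (Horner's scheme along a forest, hand-in
TrilinearReductionPoints of the starting library) is computed by a rectangular circuit: the rows
compute the monomials, the columns carry the variables, and a wire crosses another one by means of the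
gates `h + w = s`, `h' + w = s`, `h + v' = s`. The circuit is a fundamental domain for the sublattice
generated by `(3, -1)` and `(4, 2)`. The variables are polynomials in the inputs and in the gates, and
so (surjective endomorphisms of noetherian rings are injective) `f + ∑ y_g z_g` becomes
`F` by the automorphism `z_g ↦ p_g`, `y_g ↦ y_g + a_g`, `x_out = f + ∑ a_g p_g`. The relation between the
zeta functions of `f` and `f + u v` is the one of TrilinearReductionPoints; it is used for four
consecutive numbers of planes.
-/

set_option autoImplicit false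

namespace Pool.Agent.Results.MP_b91a16_ag.LatticePolynomials

open MvPolynomial Pool.Agent.Q223.MM Pool.Agent.Q223.TW Pool.Agent.Q42.CU Pool.Agent.H43.PC
open Pool.Agent.H628R4.TP (IsBFunction)

/-- **Q1 at the points of the affine spaces over a field `k ⊂ ℂ` is equivalent to its case of the
lattice polynomials over `k` with minimal exponent larger than `N`.**

`OnLattice (coeffs S) γ`: the gates `γ` are a lattice system, and their constants are `0` or in `S` or
in `-S`. `latP γ out` is the polynomial `x_out + ∑ y_g p_g(x)`. `StEq f κ F`: `F` has `n + 2 κ`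
variables and an isomorphism of polynomial rings takes `f + ∑_{m < κ} u_m v_m` to `F`.

`zeta f x = ∑_{m ≥ 1} [X_{m,1,x}] 𝕃 ^ (-n m) T ^ m` is the local motivic zeta function of the problem and
`ratRing K S = 𝓜_K[T, 1 / (1 - 𝕃 ^ a T ^ d)]_{(a, d) ∈ S}`. `StrongPt f K x`, for `f ∈ k[x_1, …, x_n]`
and a point `x` with coordinates in a field `K` which contains `k`: for every `b ≠ 0` with
`b(s) f ^ s = P(s) f ^ (s + 1)` over `ℂ` (for instance `b = b_f`) there is a finite set `S` of pairs
`(a, d) ∈ ℤ × ℤ_{>0}` with `zeta f x ∈ ratRing K S` and `b(a / d) = 0` for all `(a, d) ∈ S`. For `b = b_f`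
this is Q1 (the roots of `b_f` are negative by Kashiwara's theorem, so `a < 0`).
`MinExp N F`: there is `c ≠ 0` such that `(s + 1) c(s)` satisfies such a functional equation for `F`, and
the roots of `c` have real part `< -N`; so the minimal exponent of `F` is larger than `N`.

First part: every nonconstant `f ∈ k[x]` with coefficients in the `ℚ`-span of `S ∋ 1` is stably
equivalent over `k` to lattice polynomials `F_j`, with `κ + j` planes, for all large `κ`;
they have minimal exponent larger than `N` (as `f` has a Bernstein-Sato polynomial), and for every point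
`x` of `f = 0` there are points `p_j` of `F_j = 0` over the same field such that Q1 for `(F_j, p_j)`,
`j < 4`, implies Q1 for `(f, x)`.
Second part: the equivalence. For `S = Set.univ` it is about all nonconstant `f ∈ k[x]`, for
`S = {1}` about all nonconstant polynomials with rational coefficients. -/
theorem result (k : Type) [Field k] [CharZero k] [Algebra k ℂ] (S : Set k) (hS : (1 : k) ∈ S)
    (N : ℕ) :
    (∀ (n : ℕ) (f : MvPolynomial (Fin n) k), f.totalDegree ≠ 0 →
      (∀ d, coeff d f ∈ Submodule.span ℚ S) →
      ∃ κ₁ : ℕ, ∀ κ, κ₁ ≤ κ → ∃ (m r : ℕ → ℕ) (γ : ∀ j, Fin (r j) → Gate k (Fin (m j)))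
        (out : ∀ j, Fin (m j)),
        (∀ j, OnLattice (coeffs S) (γ j) ∧ StEq f (κ + j) (latP (γ j) (out j)) ∧
          ((∃ b : Polynomial ℂ, b ≠ 0 ∧ IsBFunction (map (algebraMap k ℂ) f) b) →
            MinExp N (map (algebraMap k ℂ) (latP (γ j) (out j))))) ∧
        ∀ (K : Type) [Field K] [Algebra k K] (x : Fin n → K), aeval x f = 0 →
          ∃ p : ∀ j : ℕ, Fin (m j + r j) → K,
            (∀ j, aeval (p j) (latP (γ j) (out j)) = 0) ∧
            ((∀ j < 4, StrongPt (latP (γ j) (out j)) K (p j)) → StrongPt f K x)) ∧
    ((∀ (n : ℕ) (f : MvPolynomial (Fin n) k), f.totalDegree ≠ 0 →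
        (∀ d, coeff d f ∈ Submodule.span ℚ S) →
        ∀ (K : Type) [Field K] [Algebra k K] (x : Fin n → K), aeval x f = 0 → StrongPt f K x) ↔
      ∀ (m r : ℕ) (γ : Fin r → Gate k (Fin m)) (out : Fin m), OnLattice (coeffs S) γ →
        MinExp N (map (algebraMap k ℂ) (latP γ out)) →
        ∀ (K : Type) [Field K] [Algebra k K] (p : Fin (m + r) → K),
          aeval p (latP γ out) = 0 → StrongPt (latP γ out) K p) := by
  have key : ∀ (n : ℕ) (f : MvPolynomial (Fin n) k), f.totalDegree ≠ 0 →
      (∀ d, coeff d f ∈ Submodule.span ℚ S) →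
      ∃ κ₁ : ℕ, ∀ κ, κ₁ ≤ κ → ∃ (m r : ℕ → ℕ) (γ : ∀ j, Fin (r j) → Gate k (Fin (m j)))
        (out : ∀ j, Fin (m j)),
        (∀ j, OnLattice (coeffs S) (γ j) ∧ StEq f (κ + j) (latP (γ j) (out j)) ∧
          ((∃ b : Polynomial ℂ, b ≠ 0 ∧ IsBFunction (map (algebraMap k ℂ) f) b) →
            MinExp N (map (algebraMap k ℂ) (latP (γ j) (out j))))) ∧
        ∀ (K : Type) [Field K] [Algebra k K] (x : Fin n → K), aeval x f = 0 →
          ∃ p : ∀ j : ℕ, Fin (m j + r j) → K,
            (∀ j, aeval (p j) (latP (γ j) (out j)) = 0) ∧
            ((∀ j < 4, StrongPt (latP (γ j) (out j)) K (p j)) → StrongPt f K x) := by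
    intro n f hf hfS
    obtain ⟨κ₁, h⟩ := exists_lats S hS N n f hf hfS
    refine ⟨κ₁, fun κ hκ => ?_⟩
    choose r m γ out h1 using fun j : ℕ => h (κ + j) (hκ.trans (Nat.le_add_right κ j))
    exact ⟨m, r, γ, out, h1, fun K _ _ x hx => StEq.pt hf (fun j => (h1 j).2.1) K x hx⟩
  refine ⟨key, ?_, ?_⟩
  · intro h m r γ out hγ _ K _ _ p hp
    exact h _ _ (latP_deg γ out) (latP_span hS hγ.consts out) K p hp
  · intro h n f hf hfS K _ _ x hx
    by_cases hb : ∃ b : Polynomial ℂ, b ≠ 0 ∧ IsBFunction (map (algebraMap k ℂ) f) b
    · obtain ⟨κ₁, h3⟩ := key n f hf hfS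
      obtain ⟨m, r, γ, out, h4, h5⟩ := h3 κ₁ le_rfl
      obtain ⟨p, hp, h6⟩ := h5 K x hx
      exact h6 fun j _ => h _ _ _ _ (h4 j).1 ((h4 j).2.2 hb) K (p j) (hp j)
    · intro b hb0 hb'
      exact absurd ⟨b, hb0, hb'⟩ hb

end Pool.Agent.Results.MP_b91a16_ag.LatticePolynomials
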